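import Pool.Agent.H13.SR.Defs

/-!
# Project SR, module E: Euler products as exponentials (helper31)
-/

set_option autoImplicit false

namespace Pool.Agent.H13.SR

open scoped ComplexConjugate
open Filter Topology

theorem ps_cons (a : ℂ) (T : Multiset ℂ) (k : ℕ) : ps (a ::ₘ T) k = a ^ k + ps T k := by
  simp [ps]

theorem ps_zero (k : ℕ) : ps 0 k = 0 := by simp [ps]

theorem log_hasSum {w : ℂ} (hw : ‖w‖ < 1) :
    HasSum (fun k : ℕ => w ^ (k + 1) / (k + 1)) (-Complex.log (1 - w)) := by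
  have h := Complex.hasSum_taylorSeries_neg_log hw
  have h1 := (hasSum_nat_add_iff' 1).2 h
  simpa using h1

theorem log_summable {w : ℂ} (hw : ‖w‖ < 1) :
    Summable (fun k : ℕ => ‖w ^ (k + 1) / (k + 1)‖) := by
  refine Summable.of_nonneg_of_le (fun _ => norm_nonneg _) (fun k => ?_)
    (summable_geometric_of_lt_one (norm_nonneg w) hw)
  rw [norm_div, norm_pow]
  have h1 : (1 : ℝ) ≤ ‖((k : ℂ) + 1)‖ := by
    have : ((k : ℂ) + 1) = ((k + 1 : ℕ) : ℂ) := by push_cast; rfl
    rw [this, Complex.norm_natCast]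
    exact_mod_cast Nat.le_add_left 1 k
  calc ‖w‖ ^ (k + 1) / ‖((k : ℂ) + 1)‖ ≤ ‖w‖ ^ (k + 1) / 1 := by gcongr
    _ ≤ ‖w‖ ^ k := by
      rw [div_one, pow_succ]
      exact mul_le_of_le_one_right (by positivity) hw.le

/-- Euler factor in terms of `z` -/
theorem euler_aux (z : ℂ) (hz : ‖z‖ < 1) (T : Multiset ℂ) (hT : ∀ a ∈ T, ‖a‖ ≤ 1) :
    ∃ S : ℂ, HasSum (fun k : ℕ => ps T (k + 1) / (k + 1) * z ^ (k + 1)) S ∧
      Complex.exp S = ((T.map fun a => 1 - a * z).prod)⁻¹ ∧
      Summable (fun k : ℕ => ‖ps T (k + 1) / (k + 1) * z ^ (k + 1)‖) := by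
  induction T using Multiset.induction_on with
  | empty =>
    refine ⟨0, ?_, by simp, ?_⟩
    · simp [ps_zero]
    · simp [ps_zero]
  | cons a T ih =>
    obtain ⟨S, h1, h2, h3⟩ := ih (fun b hb => hT b (Multiset.mem_cons_of_mem hb))
    have ha : ‖a * z‖ < 1 := by
      rw [norm_mul]
      calc ‖a‖ * ‖z‖ ≤ 1 * ‖z‖ := by
            gcongr
            exact hT a (Multiset.mem_cons_self a T)
        _ < 1 := by rwa [one_mul]
    have e : (fun k : ℕ => ps (a ::ₘ T) (k + 1) / (k + 1) * z ^ (k + 1)) =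
        fun k : ℕ => (a * z) ^ (k + 1) / (k + 1) + ps T (k + 1) / (k + 1) * z ^ (k + 1) := by
      funext k
      rw [ps_cons, mul_pow]
      ring
    refine ⟨-Complex.log (1 - a * z) + S, ?_, ?_, ?_⟩
    · rw [e]
      exact (log_hasSum ha).add h1
    · have hne : 1 - a * z ≠ 0 := by
        intro h
        have h5 : a * z = 1 := by linear_combination -h
        rw [h5] at ha
        simp at ha
      rw [Complex.exp_add, Complex.exp_neg, Complex.exp_log hne, h2, Multiset.map_cons,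
        Multiset.prod_cons, mul_inv]
    · refine Summable.of_nonneg_of_le (fun _ => norm_nonneg _) (fun k => ?_)
        ((log_summable ha).add h3)
      rw [congrFun e k]
      exact norm_add_le _ _

theorem norm_q_lt (q : ℕ) (hq : 2 ≤ q) (s : ℂ) (hs : 0 < s.re) : ‖(q : ℂ) ^ (-s)‖ < 1 := by
  rw [Complex.norm_natCast_cpow_of_pos (by omega), Complex.neg_re]
  exact Real.rpow_lt_one_of_one_lt_of_neg (by exact_mod_cast hq) (by linarith)

theorem q_pow (q k : ℕ) (s : ℂ) :
    (q : ℂ) ^ (-(k + 1 : ℂ) * s) = ((q : ℂ) ^ (-s)) ^ (k + 1) := by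
  rw [← Complex.cpow_nat_mul]
  congr 1
  push_cast
  ring

/-- E1 -/
theorem euler_eq_exp (T : Multiset ℂ) (hT : ∀ a ∈ T, ‖a‖ ≤ 1) (q : ℕ) (hq : 2 ≤ q) (s : ℂ)
    (hs : 0 < s.re) :
    euler T q s = Complex.exp (∑' k : ℕ, ps T (k + 1) / (k + 1) * (q : ℂ) ^ (-(k + 1 : ℂ) * s)) ∧
    Summable (fun k : ℕ => ‖ps T (k + 1) / (k + 1) * (q : ℂ) ^ (-(k + 1 : ℂ) * s)‖) := by
  obtain ⟨S, h1, h2, h3⟩ := euler_aux ((q : ℂ) ^ (-s)) (norm_q_lt q hq s hs) T hT
  have e : (fun k : ℕ => ps T (k + 1) / (k + 1) * (q : ℂ) ^ (-(k + 1 : ℂ) * s)) =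
      fun k : ℕ => ps T (k + 1) / (k + 1) * ((q : ℂ) ^ (-s)) ^ (k + 1) := by
    funext k
    rw [q_pow]
  rw [e]
  constructor
  · rw [h1.tsum_eq, h2]; rfl
  · refine (summable_congr fun k => ?_).2 h3
    rw [q_pow]

theorem sum_product_mul (S T : Multiset ℂ) (f g : ℂ → ℂ) :
    ((S ×ˢ T).map fun ab => f ab.1 * g ab.2).sum = (S.map f).sum * (T.map g).sum := by
  induction S using Multiset.induction_on with
  | empty => simp
  | cons a S ih =>
    rw [Multiset.cons_product, Multiset.map_add, Multiset.sum_add, ih, Multiset.map_cons,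
      Multiset.sum_cons, add_mul, Multiset.map_map]
    congr 1
    exact Multiset.sum_map_mul_left (s := T) (a := f a) (f := g)

/-- E2 -/
theorem ps_rs (T : Multiset ℂ) (k : ℕ) : ps (rs T) k = ((‖ps T k‖ ^ 2 : ℝ) : ℂ) := by
  have h1 : ps (rs T) k = (T.map fun a => a ^ k).sum * (T.map fun a => conj a ^ k).sum := by
    rw [← sum_product_mul, ps, rs, Multiset.map_map]
    congr 1
    refine Multiset.map_congr rfl fun ab _ => ?_
    simp only [Function.comp]
    rw [mul_pow]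
  have h2 : (T.map fun a => conj a ^ k).sum = conj ((T.map fun a => a ^ k).sum) := by
    rw [map_multiset_sum, Multiset.map_map]
    congr 1
    refine Multiset.map_congr rfl fun a _ => ?_
    simp
  rw [h1, h2, Complex.mul_conj, Complex.normSq_eq_norm_sq]
  rfl

/-- the basic summability -/
theorem base_summable {W : Type} (N : W → ℕ) (hN : ∀ v, 2 ≤ N v) (σ : ℝ) (hσ : 0 < σ)
    (hsum : Summable fun v => (N v : ℝ) ^ (-σ)) :
    Summable fun x : W × ℕ => Real.exp (-σ * ((x.2 + 1) * Real.log (N x.1))) := by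
  have hg : Summable fun k : ℕ => ((2 : ℝ) ^ (-σ)) ^ k := by
    refine summable_geometric_of_lt_one (by positivity) ?_
    exact Real.rpow_lt_one_of_one_lt_of_neg (by norm_num) (by linarith)
  have h := Summable.mul_of_nonneg hsum hg (fun v => by positivity) (fun k => by positivity)
  refine Summable.of_nonneg_of_le (fun _ => (Real.exp_pos _).le) (fun x => ?_) h
  have hNp : (0 : ℝ) < N x.1 := by
    have := hN x.1
    exact_mod_cast (by omega : 0 < N x.1)
  have e : Real.exp (-σ * ((x.2 + 1) * Real.log (N x.1))) =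
      (N x.1 : ℝ) ^ (-σ) * ((N x.1 : ℝ) ^ (-σ)) ^ x.2 := by
    rw [← pow_succ', ← Real.rpow_natCast, ← Real.rpow_mul hNp.le, Real.rpow_def_of_pos hNp]
    congr 1
    push_cast
    ring
  rw [e]
  refine mul_le_mul_of_nonneg_left ?_ (by positivity)
  refine pow_le_pow_left₀ (by positivity) ?_ _
  exact Real.rpow_le_rpow_of_nonpos (by norm_num) (by exact_mod_cast hN x.1) (by linarith)

/-- E4: power sums over a thin set -/
theorem thin_summable {W : Type} (N : W → ℕ) (hN : ∀ v, 2 ≤ N v) (σ : ℝ) (hσ : 0 < σ)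
    (hsum : Summable fun v => (N v : ℝ) ^ (-σ)) (C : ℝ) (e : W × ℕ → ℝ)
    (he : ∀ x, 0 ≤ e x ∧ e x ≤ C) :
    Summable fun x : W × ℕ => e x / (x.2 + 1) * Real.exp (-σ * ((x.2 + 1) * Real.log (N x.1))) := by
  refine Summable.of_nonneg_of_le (fun x => ?_) (fun x => ?_)
    ((base_summable N hN σ hσ hsum).mul_left C)
  · have := (he x).1
    positivity
  · refine mul_le_mul_of_nonneg_right ?_ (Real.exp_pos _).le
    refine (div_le_self (he x).1 ?_).trans (he x).2
    have : (0 : ℝ) ≤ x.2 := Nat.cast_nonneg _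
    linarith

theorem norm_ps_le (T : Multiset ℂ) (hT : ∀ a ∈ T, ‖a‖ ≤ 1) (k : ℕ) :
    ‖ps T k‖ ≤ Multiset.card T := by
  induction T using Multiset.induction_on with
  | empty => simp [ps_zero]
  | cons a T ih =>
    rw [ps_cons, Multiset.card_cons]
    push_cast
    refine (norm_add_le _ _).trans ?_
    have h1 := ih (fun b hb => hT b (Multiset.mem_cons_of_mem hb))
    have h2 : ‖a ^ k‖ ≤ 1 := by
      rw [norm_pow]
      exact pow_le_one₀ (norm_nonneg _) (hT a (Multiset.mem_cons_self a T))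
    linarith

/-- E3: the exponential formula for the whole product, `Re s > 1` -/
theorem Lf_eq_exp {V : Type} (N : V → ℕ) (hN : ∀ v, 2 ≤ N v)
    (hsum : ∀ σ : ℝ, 1 < σ → Summable fun v => (N v : ℝ) ^ (-σ)) (T : V → Multiset ℂ)
    (hT : ∀ v, ∀ a ∈ T v, ‖a‖ ≤ 1) (m : ℕ) (hm : ∀ v, Multiset.card (T v) ≤ m) (s : ℂ)
    (hs : 1 < s.re) :
    Lf N T s = Complex.exp (∑' x : V × ℕ, ps (T x.1) (x.2 + 1) / (x.2 + 1) *
      Complex.exp (-s * ((x.2 + 1) * Real.log (N x.1) : ℝ))) ∧
    (Summable fun x : V × ℕ => ‖ps (T x.1) (x.2 + 1) / (x.2 + 1)‖ *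
      Real.exp (-s.re * ((x.2 + 1) * Real.log (N x.1)))) := by
  have hs0 : 0 < s.re := by linarith
  have hS : Summable fun x : V × ℕ => ‖ps (T x.1) (x.2 + 1) / (x.2 + 1)‖ *
      Real.exp (-s.re * ((x.2 + 1) * Real.log (N x.1))) := by
    refine Summable.of_nonneg_of_le (fun x => by positivity) (fun x => ?_)
      ((base_summable N hN s.re hs0 (hsum _ hs)).mul_left (m : ℝ))
    refine mul_le_mul_of_nonneg_right ?_ (Real.exp_pos _).le
    rw [norm_div]
    have h1 : (1 : ℝ) ≤ ‖((x.2 : ℂ) + 1)‖ := by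
      have : ((x.2 : ℂ) + 1) = ((x.2 + 1 : ℕ) : ℂ) := by push_cast; rfl
      rw [this, Complex.norm_natCast]
      exact_mod_cast Nat.le_add_left 1 x.2
    refine (div_le_self (norm_nonneg _) h1).trans ((norm_ps_le (T x.1) (hT x.1) _).trans ?_)
    exact_mod_cast hm x.1
  refine ⟨?_, hS⟩
  set F : V × ℕ → ℂ := fun x => ps (T x.1) (x.2 + 1) / (x.2 + 1) *
      Complex.exp (-s * ((x.2 + 1) * Real.log (N x.1) : ℝ)) with hF
  have hFn : ∀ x, ‖F x‖ = ‖ps (T x.1) (x.2 + 1) / (x.2 + 1)‖ *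
      Real.exp (-s.re * ((x.2 + 1) * Real.log (N x.1))) := by
    intro x
    rw [hF]
    simp only
    rw [norm_mul, Complex.norm_exp]
    congr 2
    rw [Complex.mul_re, Complex.ofReal_re, Complex.ofReal_im, mul_zero, sub_zero, Complex.neg_re]
  have hFs : Summable F := by
    refine Summable.of_norm ?_
    rw [funext hFn]
    exact hS
  have hfib : ∀ v, HasSum (fun k => F (v, k)) (∑' k, F (v, k)) := fun v =>
    (hFs.comp_injective (Prod.mk_right_injective v)).hasSum
  have h1 := hFs.hasSum.prod_fiberwise hfib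
  have h2 := h1.cexp
  have h3 : (Complex.exp ∘ fun v => ∑' k, F (v, k)) = fun v => euler (T v) (N v) s := by
    funext v
    simp only [Function.comp]
    rw [(euler_eq_exp (T v) (hT v) (N v) (hN v) s hs0).1]
    congr 1
    refine tsum_congr fun k => ?_
    rw [hF]
    simp only
    congr 1
    have hNp : (N v : ℂ) ≠ 0 := by
      have := hN v
      exact_mod_cast (by omega : N v ≠ 0)
    rw [Complex.cpow_def_of_ne_zero hNp, ← Complex.natCast_log]
    congr 1
    push_cast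
    ring
  rw [h3] at h2
  exact h2.tprod_eq

end Pool.Agent.H13.SR
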